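import Pool.Agent.H18.HX.Targets

/-!
# ELI: every element divides a pulled back element
-/

set_option autoImplicit false

open MvPolynomial
open Pool.Agent.H12.ZD (pmap v O Res DenseOrbit NoInv)
open Pool.Agent.H18.HIT Pool.Agent.H18.HX

namespace Pool.Agent.H63.HX

/-- an injective endomorphism of a domain of finite type: every element divides an element of
the image -/
theorem exists_dvd_of_injective {k B : Type} [Field k] [CommRing B] [IsDomain B] [Algebra k B]
    {L : ℕ} (x : Fin L → B) (hx : Algebra.adjoin k (Set.range x) = ⊤) (φ : B →ₐ[k] B)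
    (hφ : Function.Injective φ) {b : B} (hb : b ≠ 0) : ∃ r : B, r ≠ 0 ∧ b ∣ φ r := by
  classical
  have h0 : Algebra.IsAlgebraic (Algebra.adjoin k (Set.range x)) B := by
    constructor
    intro a
    have ha : a ∈ Algebra.adjoin k (Set.range x) := by
      rw [hx]
      exact Algebra.mem_top
    exact isAlgebraic_algebraMap (⟨a, ha⟩ : Algebra.adjoin k (Set.range x))
  obtain ⟨t, hts, ht⟩ := exists_isTranscendenceBasis_subset (R := k) (A := B) (Set.range x)
  have : Finite t := (Set.finite_range x).subset hts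
  have h1 : AlgebraicIndependent k (φ ∘ ((↑) : t → B)) := ht.1.map' hφ
  have h2 : IsTranscendenceBasis k (φ ∘ ((↑) : t → B)) := by
    apply h1.isTranscendenceBasis_of_trdeg_le_of_finite
    rw [← ht.cardinalMk_eq_trdeg]
  have h3 := h2.isAlgebraic
  obtain ⟨r, hr, hdvd⟩ := (h3.isAlgebraic b).exists_nonzero_dvd (mem_nonZeroDivisors_of_ne_zero hb)
  have h4 : (r : B) ∈ φ.range := by
    have h5 : Algebra.adjoin k (Set.range (φ ∘ ((↑) : t → B))) ≤ φ.range := by
      apply Algebra.adjoin_le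
      rintro _ ⟨y, rfl⟩
      exact ⟨(y : B), rfl⟩
    exact h5 r.2
  obtain ⟨s, hs⟩ := h4
  have hs' : φ s = (r : B) := hs
  refine ⟨s, ?_, ?_⟩
  · rintro rfl
    apply hr
    apply Subtype.ext
    rw [← hs', map_zero]
    rfl
  · rw [hs']
    exact hdvd

theorem pf_ELI : T_ELI := by
  classical
  intro L k _ I _ f hf c hc
  let B := Po L k ⧸ I
  let π : Po L k →ₐ[k] B := Ideal.Quotient.mkₐ k I
  have hπ : ∀ q, π q = 0 ↔ q ∈ I := fun q => Ideal.Quotient.eq_zero_iff_mem
  have hsurj : Function.Surjective π := Ideal.Quotient.mkₐ_surjective k I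
  let ψ : Po L k →ₐ[k] B := π.comp (aeval f)
  have hψ : ∀ a ∈ I, ψ a = 0 := fun a ha => (hπ _).mpr (hf.inv a ha)
  let φ : B →ₐ[k] B := Ideal.Quotient.liftₐ I ψ hψ
  have hφπ : ∀ q, φ (π q) = π (aeval f q) := fun q => rfl
  have hφ : Function.Injective φ := by
    rw [injective_iff_map_eq_zero]
    intro a ha
    obtain ⟨q, rfl⟩ := hsurj a
    rw [hφπ, hπ] at ha
    exact (hπ q).mpr (hf.inj q ha)
  have hx : Algebra.adjoin k (Set.range fun i : Fin L => π (X i)) = ⊤ := by
    have h1 : (Set.range fun i : Fin L => π (X i)) = π '' Set.range (X : Fin L → Po L k) := by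
      rw [← Set.range_comp]
      rfl
    rw [h1, ← AlgHom.map_adjoin, MvPolynomial.adjoin_range_X, Algebra.map_top,
      AlgHom.range_eq_top]
    exact hsurj
  have hb : π c ≠ 0 := fun h => hc ((hπ c).mp h)
  obtain ⟨r, hr, hdvd⟩ := exists_dvd_of_injective (fun i : Fin L => π (X i)) hx φ hφ hb
  obtain ⟨c', rfl⟩ := hsurj r
  obtain ⟨a, ha⟩ := hdvd
  obtain ⟨A, rfl⟩ := hsurj a
  refine ⟨c', A, fun h => hr ((hπ c').mpr h), ?_⟩
  rw [← hπ, map_sub, map_mul, ← hφπ, ha, sub_self]

end Pool.Agent.H63.HX
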